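import Pool.Agent.Lib.MP_fc2ced_ag.Final

namespace Pool.Agent.Results.MP_fc2ced_ag.HalfTwist

open Pool.Agent.Lib.MP_fc2ced_ag MvPolynomial
open scoped IntermediateField

/-- Smooth affine varieties whose function field is contained in the field `k(x, y, w)`,
`w ^ n = f / q ^ 2`, for a plane quartic `f = Q₁ Q₃ + q a` and a conic `q`, have Schur-finite
motive. -/
theorem result (k : Type) [Field k] [CharZero k] [IsAlgClosed k]
    (Q₁ Q₃ q a : MvPolynomial (Fin 3) k) (h₁ : Q₁.IsHomogeneous 2) (h₃ : Q₃.IsHomogeneous 2)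
    (hq : q.IsHomogeneous 2) (ha : a.IsHomogeneous 2)
    (h₀ : ∀ p : Fin 3 → k, eval p Q₁ = 0 → eval p Q₃ = 0 → eval p q = 0 → p = 0)
    (c : k) (hc : ∀ p : Fin 3 → k, (∀ i, eval p (pderiv i (C c * Q₁ + q)) = 0) → p = 0)
    (n : ℕ) (hn : 0 < n) (Ω : Type) [Field Ω] [Algebra k Ω] (x y w : Ω)
    (hxy : AlgebraicIndependent k ![x, y]) (hw : w ≠ 0)
    (he : w ^ n * aeval ![1, x, y] q ^ 2 = aeval ![1, x, y] (Q₁ * Q₃ + q * a))
    (A : Type) [CommRing A] [IsDomain A] [Algebra k A] [Algebra.Smooth k A] (ι : A →ₐ[k] Ω)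
    (hι : Function.Injective ι) (hA : ∀ r, ι r ∈ k⟮x, y, w⟯) : Mot.SchurFinite k A := by
  obtain ⟨M₁, s₁, rfl⟩ := Fnl.exists_matrix h₁
  obtain ⟨M₃, s₃, rfl⟩ := Fnl.exists_matrix h₃
  obtain ⟨Mq, sq, rfl⟩ := Fnl.exists_matrix hq
  obtain ⟨Ma, sa, rfl⟩ := Fnl.exists_matrix ha
  have e : C c * ev M₁ X + ev Mq X = (ev (c • M₁ + Mq) X : MvPolynomial (Fin 3) k) := by
    simp [ev, qf, dotProduct, Matrix.mulVec, Fin.sum_univ_three]
    ring
  refine (Fnl.sf_forms ⟨M₁, M₃, Mq, Ma, s₁, s₃, sq, sa⟩ (fun p e1 e2 e3 => h₀ p ?_ ?_ ?_)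
    ⟨c, Fnl.det_ne_zero ((s₁.smul c).add sq) (e ▸ hc)⟩ hn hxy hw ?_ A ι hι hA).schurFinite
  · exact (aeval_ev M₁ p).trans e1
  · exact (aeval_ev M₃ p).trans e2
  · exact (aeval_ev Mq p).trans e3
  · simp only [map_add, map_mul, aeval_ev] at he
    exact he

end Pool.Agent.Results.MP_fc2ced_ag.HalfTwist
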